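import Mathlib

set_option autoImplicit false

/-!
# Infinite boxes which avoid a relation
-/

namespace Pool.Agent.ZVW

/-- **The box lemma.** Let `R` be a relation on a group which meets every product of `n` infinite
sets, and let `R` fail at `g`. Then finitely many `x` excepted, every `x` satisfies one of finitely
many conditions `R (a · x ^ e)`, `a` a tuple at which `R` fails, `e` a set of places. -/
theorem box {G : Type*} [Group G] {n : ℕ} (R : (Fin n → G) → Prop)
    (hR : ∀ S : Fin n → Set G, (∀ i, (S i).Infinite) → ∃ s, (∀ i, s i ∈ S i) ∧ R s)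
    (g : Fin n → G) (hg : ¬ R g) :
    ∃ (F : Finset G) (L : Finset ((Fin n → G) × Finset (Fin n))), (∀ p ∈ L, ¬ R p.1) ∧
      ∀ x, x ∉ F → ∃ p ∈ L, R fun i => if i ∈ p.2 then p.1 i * x else p.1 i := by
  classical
  obtain ⟨T, hT⟩ : ∃ T : Set (Set G),
      T = {X | ∀ y : Fin n → G, (∀ i, y i ∈ X) → ¬ R fun i => g i * y i} := ⟨_, rfl⟩
  have hmem : ∀ X, X ∈ T ↔ ∀ y : Fin n → G, (∀ i, y i ∈ X) → ¬ R fun i => g i * y i := by
    intro X; rw [hT]; rfl
  have h1 : ({1} : Set G) ∈ T := by
    rw [hmem]
    intro y hy
    have h2 : (fun i => g i * y i) = g := by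
      funext i
      have h3 : y i = 1 := hy i
      rw [h3, mul_one]
    rw [h2]
    exact hg
  obtain ⟨X, hX1, hX⟩ := zorn_subset_nonempty T (by
    intro c hc hchain hne
    refine ⟨⋃₀ c, ?_, fun s hs => Set.subset_sUnion_of_mem hs⟩
    rw [hmem]
    intro y hy
    have key : ∀ I : Finset (Fin n), ∃ Z ∈ c, ∀ i ∈ I, y i ∈ Z := by
      intro I
      induction I using Finset.induction_on with
      | empty =>
        obtain ⟨Z, hZ⟩ := hne
        exact ⟨Z, hZ, fun i hi => absurd hi (Finset.notMem_empty i)⟩
      | insert j I hj ih =>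
        obtain ⟨Z, hZ, hZI⟩ := ih
        obtain ⟨Z', hZ', hyj⟩ := hy j
        rcases hchain.total hZ hZ' with h | h
        · refine ⟨Z', hZ', fun i hi => ?_⟩
          rcases Finset.mem_insert.1 hi with rfl | hi
          · exact hyj
          · exact h (hZI i hi)
        · refine ⟨Z, hZ, fun i hi => ?_⟩
          rcases Finset.mem_insert.1 hi with rfl | hi
          · exact h hyj
          · exact hZI i hi
    obtain ⟨Z, hZ, hZy⟩ := key Finset.univ
    exact (hmem Z).1 (hc hZ) y fun i => hZy i (Finset.mem_univ i)) {1} h1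
  have hXT : X ∈ T := hX.prop
  have hfin : X.Finite := by
    by_contra hinf
    obtain ⟨s, hs, hRs⟩ := hR (fun i => (fun y => g i * y) '' X) fun i =>
      Set.Infinite.image (fun a _ b _ hab => mul_left_cancel hab) hinf
    choose y hy hys using hs
    refine (hmem X).1 hXT y hy ?_
    have h2 : (fun i => g i * y i) = s := funext fun i => hys i
    rw [h2]
    exact hRs
  have h1X : (1 : G) ∈ X := hX1 rfl
  obtain ⟨F, hF⟩ : ∃ F : Finset G, ∀ x, x ∈ F ↔ x ∈ X := ⟨hfin.toFinset, fun x => by simp⟩
  refine ⟨F, ((Fintype.piFinset fun _ : Fin n => F) ×ˢ (Finset.univ : Finset (Finset (Fin n)))).image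
    fun q => (fun i => if i ∈ q.2 then g i else g i * q.1 i, q.2), ?_, ?_⟩
  · intro p hp
    obtain ⟨q, hq, rfl⟩ := Finset.mem_image.1 hp
    have hq1 := Fintype.mem_piFinset.1 (Finset.mem_product.1 hq).1
    have h3 := (hmem X).1 hXT (fun i => if i ∈ q.2 then 1 else q.1 i) (fun i => by
      by_cases hi : i ∈ q.2
      · simpa [hi] using h1X
      · simpa [hi] using (hF _).1 (hq1 i))
    have h4 : (fun i => g i * (if i ∈ q.2 then 1 else q.1 i)) =
        fun i => if i ∈ q.2 then g i else g i * q.1 i := by
      funext i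
      by_cases hi : i ∈ q.2 <;> simp [hi]
    rw [h4] at h3
    exact h3
  · intro x hx
    have hxX : x ∉ X := fun h => hx ((hF x).2 h)
    have h2 : insert x X ∉ T := fun h => hxX (hX.le_of_ge h (Set.subset_insert x X)
      (Set.mem_insert x X))
    rw [hmem] at h2
    push Not at h2
    obtain ⟨y, hy, hRy⟩ := h2
    obtain ⟨e, he⟩ : ∃ e : Finset (Fin n), ∀ i, i ∈ e ↔ y i = x :=
      ⟨Finset.univ.filter fun i => y i = x, fun i => by simp⟩
    refine ⟨(fun i => if i ∈ e then g i else g i * (if y i = x then 1 else y i), e), ?_, ?_⟩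
    · refine Finset.mem_image.2 ⟨(fun i => if y i = x then 1 else y i, e),
        Finset.mem_product.2 ⟨Fintype.mem_piFinset.2 fun i => ?_, Finset.mem_univ _⟩, rfl⟩
      rw [hF]
      by_cases hi : y i = x
      · simpa [hi] using h1X
      · simp only [hi, if_false]
        rcases hy i with h | h
        · exact absurd h hi
        · exact h
    · have h3 : (fun i => if i ∈ e then (if i ∈ e then g i else
          g i * (if y i = x then 1 else y i)) * x else (if i ∈ e then g i else
          g i * (if y i = x then 1 else y i))) = fun i => g i * y i := by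
        funext i
        by_cases hi : y i = x
        · have hie := (he i).2 hi
          simp [hie, hi]
        · have hie : i ∉ e := fun h => hi ((he i).1 h)
          simp [hie, hi]
      change R fun i => if i ∈ e then (if i ∈ e then g i else
          g i * (if y i = x then 1 else y i)) * x else (if i ∈ e then g i else
          g i * (if y i = x then 1 else y i))
      rw [h3]
      exact hRy

end Pool.Agent.ZVW
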