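import Pool.Agent.ZVW.Noeth

set_option autoImplicit false

/-!
# Linear groups are equationally noetherian
-/

namespace Pool.Agent.ZVW

/-- **Linear groups are equationally noetherian** (in one variable). -/
theorem eqNoeth_linear {G K : Type*} [Group G] [Field K] (d : ℕ)
    (ρ : G →* GL (Fin d) K) (hρ : Function.Injective ρ) : EqNoeth G := by
  classical
  intro E hE
  obtain ⟨S, hS⟩ : ∃ S : Set (G → K), S =
      Set.range (fun (q : Fin d × Fin d) (x : G) => (ρ x : Matrix (Fin d) (Fin d) K) q.1 q.2) ∪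
      Set.range (fun (q : Fin d × Fin d) (x : G) =>
        (ρ x⁻¹ : Matrix (Fin d) (Fin d) K) q.1 q.2) := ⟨_, rfl⟩
  have hSfin : S.Finite := by
    rw [hS]
    exact (Set.finite_range _).union (Set.finite_range _)
  obtain ⟨R, hR⟩ : ∃ R : Subalgebra K (G → K), R = Algebra.adjoin K S := ⟨_, rfl⟩
  have hRfg : R.FG := by
    rw [hR]
    exact Subalgebra.fg_def.2 ⟨S, hSfin, rfl⟩
  haveI : Algebra.FiniteType K R := R.fg_iff_finiteType.1 hRfg
  haveI : IsNoetherianRing R := Algebra.FiniteType.isNoetherianRing K R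
  have hreg : ∀ u ∈ OneVar G, ∀ i j,
      (fun x => (ρ (u x) : Matrix (Fin d) (Fin d) K) i j) ∈ R ∧
      (fun x => (ρ (u x)⁻¹ : Matrix (Fin d) (Fin d) K) i j) ∈ R := by
    intro u hu
    induction hu using Subgroup.closure_induction with
    | mem u hu =>
      rcases hu with ⟨a, rfl⟩ | hu
      · intro i j
        exact ⟨R.algebraMap_mem ((ρ a : Matrix (Fin d) (Fin d) K) i j),
          R.algebraMap_mem ((ρ a⁻¹ : Matrix (Fin d) (Fin d) K) i j)⟩
      · have hu' : u = fun x => x := hu
        rw [hu', hR]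
        intro i j
        refine ⟨Algebra.subset_adjoin ?_, Algebra.subset_adjoin ?_⟩
        · rw [hS]
          exact Or.inl ⟨(i, j), rfl⟩
        · rw [hS]
          exact Or.inr ⟨(i, j), rfl⟩
    | one =>
      intro i j
      have h1 : ∀ y : G, y = 1 →
          (ρ y : Matrix (Fin d) (Fin d) K) i j = (1 : Matrix (Fin d) (Fin d) K) i j := by
        rintro y rfl
        rw [map_one]
        rfl
      refine ⟨?_, ?_⟩
      · have h2 : (fun x : G => (ρ ((1 : G → G) x) : Matrix (Fin d) (Fin d) K) i j) =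
            algebraMap K (G → K) ((1 : Matrix (Fin d) (Fin d) K) i j) := by
          funext x
          exact h1 _ rfl
        rw [h2]
        exact R.algebraMap_mem _
      · have h2 : (fun x : G => (ρ ((1 : G → G) x)⁻¹ : Matrix (Fin d) (Fin d) K) i j) =
            algebraMap K (G → K) ((1 : Matrix (Fin d) (Fin d) K) i j) := by
          funext x
          exact h1 _ inv_one
        rw [h2]
        exact R.algebraMap_mem _
    | mul u v _ _ hu hv =>
      intro i j
      refine ⟨?_, ?_⟩
      · have h2 : (fun x : G => (ρ ((u * v) x) : Matrix (Fin d) (Fin d) K) i j) =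
            ∑ k, (fun x => (ρ (u x) : Matrix (Fin d) (Fin d) K) i k) *
              (fun x => (ρ (v x) : Matrix (Fin d) (Fin d) K) k j) := by
          funext x
          rw [Finset.sum_apply]
          change (ρ (u x * v x) : Matrix (Fin d) (Fin d) K) i j = _
          rw [map_mul, Units.val_mul, Matrix.mul_apply]
          rfl
        rw [h2]
        exact R.sum_mem fun k _ => R.mul_mem (hu i k).1 (hv k j).1
      · have h2 : (fun x : G => (ρ ((u * v) x)⁻¹ : Matrix (Fin d) (Fin d) K) i j) =
            ∑ k, (fun x => (ρ (v x)⁻¹ : Matrix (Fin d) (Fin d) K) i k) *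
              (fun x => (ρ (u x)⁻¹ : Matrix (Fin d) (Fin d) K) k j) := by
          funext x
          rw [Finset.sum_apply]
          change (ρ (u x * v x)⁻¹ : Matrix (Fin d) (Fin d) K) i j = _
          rw [mul_inv_rev, map_mul, Units.val_mul, Matrix.mul_apply]
          rfl
        rw [h2]
        exact R.sum_mem fun k _ => R.mul_mem (hv i k).2 (hu k j).2
    | inv u _ hu =>
      intro i j
      refine ⟨(hu i j).2, ?_⟩
      have h2 : (fun x : G => (ρ (u⁻¹ x)⁻¹ : Matrix (Fin d) (Fin d) K) i j) =
          fun x => (ρ (u x) : Matrix (Fin d) (Fin d) K) i j := by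
        funext x
        rw [Pi.inv_apply, inv_inv]
      rw [h2]
      exact (hu i j).1
  -- the entries of `ρ (u x) - 1`
  obtain ⟨ent, hent⟩ : ∃ ent : (G → G) → Fin d → Fin d → R, ∀ u ∈ E, ∀ i j, ∀ x,
      (ent u i j : G → K) x = (ρ (u x) : Matrix (Fin d) (Fin d) K) i j -
        (1 : Matrix (Fin d) (Fin d) K) i j := by
    refine ⟨fun u i j => if h : u ∈ E then ⟨(fun x => (ρ (u x) : Matrix (Fin d) (Fin d) K) i j) -
      algebraMap K (G → K) ((1 : Matrix (Fin d) (Fin d) K) i j),
      R.sub_mem (hreg u (hE h) i j).1 (R.algebraMap_mem _)⟩ else 0, fun u hu i j x => ?_⟩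
    simp only [hu, dif_pos]
    rfl
  obtain ⟨P, hP⟩ : ∃ P : Set R, P = {f | ∃ u ∈ E, ∃ i j, f = ent u i j} := ⟨_, rfl⟩
  have hfg : (Ideal.span P).FG := IsNoetherian.noetherian _
  obtain ⟨P₀, hP₀, hspan⟩ := Submodule.fg_span_iff_fg_span_finset_subset P |>.1 hfg
  have hch : ∀ f : R, ∃ u : G → G, f ∈ P₀ → u ∈ E ∧ ∃ i j, f = ent u i j := by
    intro f
    by_cases hf : f ∈ P₀
    · have h1 : f ∈ P := hP₀ hf
      rw [hP] at h1
      obtain ⟨u, hu, i, j, h⟩ := h1
      exact ⟨u, fun _ => ⟨hu, i, j, h⟩⟩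
    · exact ⟨fun x => x, fun h => absurd h hf⟩
  choose U hU using hch
  refine ⟨P₀.image U, ?_, ?_⟩
  · intro u hu
    rw [Finset.coe_image] at hu
    obtain ⟨f, hf, rfl⟩ := hu
    exact (hU f hf).1
  · intro x hx u hu
    -- all elements of the ideal vanish at `x`
    let ev : R →+* K := (Pi.evalRingHom (fun _ : G => K) x).comp R.val.toRingHom
    have hev : ∀ f : R, ev f = (f : G → K) x := fun f => rfl
    have hker : Ideal.span P ≤ RingHom.ker ev := by
      have h0 : Ideal.span P = Submodule.span R (P₀ : Set R) := hspan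
      rw [h0]
      refine Submodule.span_le.2 ?_
      intro f hf
      change f ∈ RingHom.ker ev
      rw [RingHom.mem_ker, hev]
      obtain ⟨huE, i, j, h⟩ := hU f hf
      have h1 : U f x = 1 := hx (U f) (Finset.mem_coe.2 (Finset.mem_image_of_mem U hf))
      rw [h, hent _ huE, h1, map_one]
      exact sub_self _
    have hvan : ∀ f ∈ Ideal.span P, (f : G → K) x = 0 := by
      intro f hf
      rw [← hev]
      exact (RingHom.mem_ker).1 (hker hf)
    have h1 : ρ (u x) = 1 := by
      ext i j
      have h2 := hvan (ent u i j) (Ideal.subset_span (by rw [hP]; exact ⟨u, hu, i, j, rfl⟩))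
      rw [hent u hu] at h2
      exact sub_eq_zero.1 h2
    exact hρ (h1.trans (map_one ρ).symm)

end Pool.Agent.ZVW
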