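import Pool.Agent.ZVW.Box

set_option autoImplicit false

/-!
# Equationally noetherian groups and linear groups
-/

namespace Pool.Agent.ZVW

/-- The functions of one variable `x` given by group words in `x` and elements of `G`. -/
def OneVar (G : Type*) [Group G] : Subgroup (G → G) :=
  Subgroup.closure (Set.range (fun (a : G) (_ : G) => a) ∪ {fun x => x})

/-- The solutions of a system of equations in one variable. -/
def Sol {G : Type*} [Group G] (E : Set (G → G)) : Set G := {x | ∀ u ∈ E, u x = 1}

/-- `G` is equationally noetherian with respect to one variable: every system of equations in one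
variable with coefficients in `G` has the same solutions as a finite part of it. -/
def EqNoeth (G : Type*) [Group G] : Prop :=
  ∀ E : Set (G → G), E ⊆ (OneVar G : Set (G → G)) → ∃ E₀ : Finset (G → G), (E₀ : Set (G → G)) ⊆ E ∧
    Sol (E₀ : Set (G → G)) ⊆ Sol E

section basic

variable {G : Type*} [Group G]

theorem const_mem (a : G) : (fun _ : G => a) ∈ OneVar G :=
  Subgroup.subset_closure (Or.inl ⟨a, rfl⟩)

theorem id_mem : (fun x : G => x) ∈ OneVar G := Subgroup.subset_closure (Or.inr rfl)

/-- Translates of equations are equations. -/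
theorem shift_mem (v : G) (u : G → G) (hu : u ∈ OneVar G) : (fun x => u (v * x)) ∈ OneVar G := by
  let φ : (G → G) →* (G → G) :=
    { toFun := fun u x => u (v * x)
      map_one' := rfl
      map_mul' := fun _ _ => rfl }
  have h : OneVar G ≤ (OneVar G).comap φ := by
    refine (Subgroup.closure_le _).2 ?_
    rintro u (⟨a, rfl⟩ | hu)
    · exact const_mem a
    · have hu' : u = fun x => x := hu
      rw [hu']
      exact (OneVar G).mul_mem (const_mem v) id_mem
  exact h hu

theorem word_mem {n : ℕ} (w : FreeGroup (Fin n)) (f : Fin n → G → G)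
    (hf : ∀ i, f i ∈ OneVar G) :
    (fun x => FreeGroup.lift (fun i => f i x) w) ∈ OneVar G := by
  induction w using FreeGroup.induction_on with
  | C1 =>
    have h : (fun x => FreeGroup.lift (fun i => f i x) (1 : FreeGroup (Fin n))) =
        (1 : G → G) := by
      funext x; rw [map_one]; rfl
    rw [h]
    exact (OneVar G).one_mem
  | of i =>
    have h : (fun x => FreeGroup.lift (fun i => f i x) (FreeGroup.of i)) = f i := by
      funext x
      exact FreeGroup.lift_apply_of
    rw [h]
    exact hf i
  | inv_of i ih =>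
    have h : (fun x => FreeGroup.lift (fun i => f i x) ((FreeGroup.of i)⁻¹)) =
        (fun x => FreeGroup.lift (fun i => f i x) (FreeGroup.of i))⁻¹ := by
      funext x; rw [map_inv]; rfl
    rw [h]
    exact (OneVar G).inv_mem ih
  | mul a b ha hb =>
    have h : (fun x => FreeGroup.lift (fun i => f i x) (a * b)) =
        (fun x => FreeGroup.lift (fun i => f i x) a) *
          (fun x => FreeGroup.lift (fun i => f i x) b) := by
      funext x; rw [map_mul]; rfl
    rw [h]
    exact (OneVar G).mul_mem ha hb

/-- **Equationally noetherian groups.** An infinite group, in which every system of one-variable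
equations is equivalent to a finite part, and in which any `n` infinite sets have representatives
with `w = 1`, satisfies the law `w = 1`. -/
theorem law_of_eqNoeth [Infinite G] (hN : EqNoeth G) {n : ℕ} (w : FreeGroup (Fin n))
    (hG : ∀ S : Fin n → Set G, (∀ i, (S i).Infinite) →
      ∃ s : Fin n → G, (∀ i, s i ∈ S i) ∧ FreeGroup.lift s w = 1) (g : Fin n → G) :
    FreeGroup.lift g w = 1 := by
  classical
  by_contra hg
  obtain ⟨F, L, hL, hFL⟩ := box (fun s => FreeGroup.lift s w = 1) hG g hg
  -- a maximal system with infinitely many solutions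
  obtain ⟨T, hT⟩ : ∃ T : Set (Set (G → G)), T = {E : Set (G → G) | E ⊆ (OneVar G : Set (G → G)) ∧ (Sol E).Infinite} :=
    ⟨_, rfl⟩
  have hmem : ∀ E : Set (G → G), E ∈ T ↔ E ⊆ (OneVar G : Set (G → G)) ∧ (Sol E).Infinite :=
    fun E => by rw [hT]; rfl
  have h0 : (∅ : Set (G → G)) ∈ T := by
    rw [hmem]
    refine ⟨Set.empty_subset _, ?_⟩
    have h : Sol (∅ : Set (G → G)) = Set.univ := by
      ext x
      simp [Sol]
    rw [h]
    exact Set.infinite_univ
  obtain ⟨E, -, hE⟩ := zorn_subset_nonempty T (by
    intro c hc hchain hne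
    refine ⟨⋃₀ c, ?_, fun s hs => Set.subset_sUnion_of_mem hs⟩
    rw [hmem]
    have h1 : ⋃₀ c ⊆ (OneVar G : Set (G → G)) := by
      rintro u ⟨E, hE, hu⟩
      exact ((hmem E).1 (hc hE)).1 hu
    refine ⟨h1, ?_⟩
    obtain ⟨E₀, hE₀, hsol⟩ := hN _ h1
    have key : ∀ I : Finset (G → G), (I : Set (G → G)) ⊆ ⋃₀ c → ∃ Z ∈ c, (I : Set (G → G)) ⊆ Z := by
      intro I
      induction I using Finset.induction_on with
      | empty =>
        intro _
        obtain ⟨Z, hZ⟩ := hne
        exact ⟨Z, hZ, by simp⟩
      | insert j I hj ih =>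
        intro hI
        rw [Finset.coe_insert, Set.insert_subset_iff] at hI
        obtain ⟨Z, hZ, hZI⟩ := ih hI.2
        obtain ⟨Z', hZ', hj'⟩ := hI.1
        rw [Finset.coe_insert]
        rcases hchain.total hZ hZ' with h | h
        · exact ⟨Z', hZ', Set.insert_subset hj' (hZI.trans h)⟩
        · exact ⟨Z, hZ, Set.insert_subset (h hj') hZI⟩
    obtain ⟨Z, hZ, hZE⟩ := key E₀ hE₀
    refine (((hmem Z).1 (hc hZ)).2).mono ?_
    exact Set.Subset.trans (fun x hx u hu => hx u (hZE hu)) hsol) ∅ h0
  have hET := (hmem E).1 hE.prop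
  obtain ⟨v, hv⟩ := hET.2.nonempty
  have hfin : ∀ u ∈ OneVar G, u v ≠ 1 → (Sol E ∩ {x | u x = 1}).Finite := by
    intro u hu huv
    by_contra hinf
    have h1 : insert u E ∈ T := by
      rw [hmem]
      refine ⟨Set.insert_subset hu hET.1, ?_⟩
      have h2 : Sol (insert u E) = Sol E ∩ {x | u x = 1} := by
        ext x
        simp only [Sol, Set.mem_setOf_eq, Set.mem_inter_iff, Set.mem_insert_iff,
          forall_eq_or_imp]
        exact And.comm
      rw [h2]
      exact hinf
    have h2 : u ∈ E := hE.le_of_ge h1 (Set.subset_insert u E) (Set.mem_insert u E)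
    exact huv (hv u h2)
  refine hET.2 (Set.Finite.subset (((F.finite_toSet).image fun x => v * x).union
    (L.finite_toSet.biUnion (t := fun p => Sol E ∩ {x | FreeGroup.lift
      (fun i => if i ∈ p.2 then p.1 i * (v⁻¹ * x) else p.1 i) w = 1}) ?_)) ?_)
  · intro p hp
    refine hfin (fun x => FreeGroup.lift (fun i => if i ∈ p.2 then p.1 i * (v⁻¹ * x) else p.1 i) w)
      ?_ ?_
    · refine word_mem w (fun i x => if i ∈ p.2 then p.1 i * (v⁻¹ * x) else p.1 i) fun i => ?_
      by_cases hi : i ∈ p.2
      · simp only [hi, if_true]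
        exact (OneVar G).mul_mem (const_mem _) ((OneVar G).mul_mem (const_mem _) id_mem)
      · simp only [hi, if_false]
        exact const_mem _
    · have h3 : (fun i => if i ∈ p.2 then p.1 i * (v⁻¹ * v) else p.1 i) = p.1 := by
        funext i
        by_cases hi : i ∈ p.2 <;> simp [hi]
      change FreeGroup.lift (fun i => if i ∈ p.2 then p.1 i * (v⁻¹ * v) else p.1 i) w ≠ 1
      rw [h3]
      exact hL p hp
  · intro x hx
    by_cases hxF : v⁻¹ * x ∈ F
    · exact Or.inl ⟨v⁻¹ * x, hxF, by simp⟩
    · obtain ⟨p, hp, h⟩ := hFL _ hxF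
      refine Or.inr (Set.mem_biUnion (Finset.mem_coe.2 hp) ⟨hx, ?_⟩)
      exact h

end basic

end Pool.Agent.ZVW
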